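import Mathlib

/-!
Failure of site disorder chaos on 3-uniform hypergraphs of polynomial growth.
-/

set_option autoImplicit false

namespace Pool.Agent.Results.MP_f93cde_pr.OddEdgesNoChaos

open MeasureTheory ProbabilityTheory Filter Topology

noncomputable section

/-! ### Hypergraphs, distance and growth -/

/-- `E` is (the edge set of) a 3-uniform hypergraph on `Fin N`. -/
def IsThreeUniform {N : ℕ} (E : Finset (Finset (Fin N))) : Prop := ∀ e ∈ E, e.card = 3

/-- `l = [e_1,...,e_k]` is a chain of hyperedges from `v` to `w`. -/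
def IsChainBetween {N : ℕ} (E : Finset (Finset (Fin N))) (v w : Fin N)
    (l : List (Finset (Fin N))) : Prop :=
  (∀ e ∈ l, e ∈ E) ∧ (∃ h : l ≠ [], v ∈ l.head h ∧ w ∈ l.getLast h) ∧
    l.IsChain (fun e e' => (e ∩ e').Nonempty)

/-- The ball of radius `r` around `v`. -/
def Ball {N : ℕ} (E : Finset (Finset (Fin N))) (r : ℕ) (v : Fin N) : Set (Fin N) :=
  {w | w = v ∨ ∃ l, IsChainBetween E v w l ∧ l.length ≤ r}

/-- Polynomial growth of a sequence of hypergraphs. -/
def PolynomialGrowth (E : ∀ N : ℕ, Finset (Finset (Fin N))) : Prop :=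
  ∃ A θ : ℝ, 0 < A ∧ 0 < θ ∧ ∀ (N : ℕ) (v : Fin N) (r : ℕ), 1 ≤ r →
    ((Ball (E N) r v).ncard : ℝ) ≤ A * (r : ℝ) ^ θ

/-- Exponential growth of a sequence of hypergraphs. -/
def ExponentialGrowth (E : ∀ N : ℕ, Finset (Finset (Fin N))) : Prop :=
  ∃ A γ : ℝ, 0 < A ∧ 1 < γ ∧ ∀ (N : ℕ) (v : Fin N) (r : ℕ),
    ((Ball (E N) r v).ncard : ℝ) ≤ A * γ ^ r

/-! ### The model -/

/-- The spin `σ_i` as a real number. -/
def sp {N : ℕ} (σ : Fin N → ℤˣ) (i : Fin N) : ℝ := ((σ i : ℤ) : ℝ)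

/-- `σ_e`, the product of the spins of `e`. -/
def spE {N : ℕ} (σ : Fin N → ℤˣ) (e : Finset (Fin N)) : ℝ := ∏ i ∈ e, sp σ i

/-- The Hamiltonian. -/
def ham {N : ℕ} (E : Finset (Finset (Fin N))) (ρ : ℝ → ℝ) (J : E → ℝ) (σ : Fin N → ℤˣ) : ℝ :=
  ∑ e : E, ρ (J e) * spE σ e.1

/-- The Gibbs probability of `σ` at inverse temperature `β < ∞`. -/
def gibbs {N : ℕ} (E : Finset (Finset (Fin N))) (ρ : ℝ → ℝ) (β : ℝ) (J : E → ℝ)
    (σ : Fin N → ℤˣ) : ℝ :=
  Real.exp (β * ham E ρ J σ) / ∑ τ, Real.exp (β * ham E ρ J τ)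

/-- The site overlap `R(σ,τ)`. -/
def overlap {N : ℕ} (σ τ : Fin N → ℤˣ) : ℝ := (∑ i, sp σ i * sp τ i) / N

/-- The law of `B_e`: Bernoulli with parameter `exp (-t)`. -/
def bern (t : ℝ) : Measure Bool :=
  ENNReal.ofReal (Real.exp (-t)) • Measure.dirac true +
    ENNReal.ofReal (1 - Real.exp (-t)) • Measure.dirac false

/-- The joint law of `(J_e, J'_e, B_e)`. -/
def triple (t : ℝ) : Measure (ℝ × ℝ × Bool) :=
  (gaussianReal 0 1).prod ((gaussianReal 0 1).prod (bern t))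

/-- The law of the i.i.d. family `(J_e, J'_e, B_e)`, `e ∈ E`. -/
def law {N : ℕ} (E : Finset (Finset (Fin N))) (t : ℝ) : Measure (E → ℝ × ℝ × Bool) :=
  Measure.pi (fun _ => triple t)

/-- The disorder `J`. -/
def JJ {N : ℕ} {E : Finset (Finset (Fin N))} (x : E → ℝ × ℝ × Bool) (e : E) : ℝ := (x e).1

/-- The disorder `J(t)` of the discrete perturbation: `J_e` if `B_e = 1` and `J'_e` otherwise. -/
def Jt {N : ℕ} {E : Finset (Finset (Fin N))} (x : E → ℝ × ℝ × Bool) (e : E) : ℝ :=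
  if (x e).2.2 then (x e).1 else (x e).2.1

/-- `E ⟨R(σ,τ)^2⟩_t` for the discrete perturbation. -/
def overlapSq {N : ℕ} (E : Finset (Finset (Fin N))) (ρ : ℝ → ℝ) (β t : ℝ) : ℝ :=
  ∫ x, ∑ σ, ∑ τ, gibbs E ρ β (JJ x) σ * gibbs E ρ β (Jt x) τ * overlap σ τ ^ 2 ∂(law E t)

/-! ### The hypergraphs -/

/-- the block of a vertex -/
def blk {N : ℕ} (v : Fin N) : Finset (Fin N) :=
  Finset.univ.filter (fun u : Fin N => (u : ℕ) / 4 = (v : ℕ) / 4)

/-- the triple missing the vertex `v` of its block -/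
def mm {N : ℕ} (v : Fin N) : Finset (Fin N) := (blk v).erase v

/-- the hypergraph: disjoint complete 3-uniform hypergraphs on 4 vertices -/
def EE (N : ℕ) : Finset (Finset (Fin N)) := (Finset.univ.image mm).filter (fun e => e.card = 3)

lemma mem_blk {N : ℕ} {u v : Fin N} : u ∈ blk v ↔ (u : ℕ) / 4 = (v : ℕ) / 4 := by
  simp [blk]

lemma blk_eq {N : ℕ} {u v : Fin N} (h : u ∈ blk v) : blk u = blk v := by
  ext w
  rw [mem_blk] at h
  rw [mem_blk, mem_blk, h]

lemma self_mem_blk {N : ℕ} (v : Fin N) : v ∈ blk v := by rw [mem_blk]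

lemma card_blk_le {N : ℕ} (v : Fin N) : (blk v).card ≤ 4 := by
  have h : (blk v).card ≤ (Finset.range 4).card := by
    apply Finset.card_le_card_of_injOn (fun u : Fin N => (u : ℕ) % 4)
    · intro u _
      simp only [Finset.coe_range, Set.mem_Iio]
      exact Nat.mod_lt _ (by norm_num)
    · intro u hu w hw huw
      have hu' := mem_blk.mp hu
      have hw' := mem_blk.mp hw
      simp only at huw
      apply Fin.ext
      omega
  simpa using h

lemma card_blk {k : ℕ} (v : Fin (4 * k)) : (blk v).card = 4 := by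
  apply le_antisymm (card_blk_le v)
  have hlt : ∀ r : Fin 4, 4 * ((v : ℕ) / 4) + (r : ℕ) < 4 * k := by
    intro r
    have := v.2
    have := r.2
    omega
  have h : (Finset.univ : Finset (Fin 4)).card ≤ (blk v).card := by
    apply Finset.card_le_card_of_injOn (fun r : Fin 4 => (⟨4 * ((v : ℕ) / 4) + r, hlt r⟩ : Fin (4 * k)))
    · intro r _
      simp only [Finset.mem_coe]
      rw [mem_blk]
      have := r.2
      simp only
      omega
    · intro r _ s _ h
      simp only [Fin.mk.injEq] at h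
      exact Fin.ext (by omega)
  simpa using h

lemma card_mm {k : ℕ} (v : Fin (4 * k)) : (mm v).card = 3 := by
  unfold mm
  rw [Finset.card_erase_of_mem (self_mem_blk v), card_blk]

lemma mm_mem {k : ℕ} (v : Fin (4 * k)) : mm v ∈ EE (4 * k) := by
  unfold EE
  rw [Finset.mem_filter]
  exact ⟨Finset.mem_image_of_mem _ (Finset.mem_univ _), card_mm v⟩

lemma mem_mm {N : ℕ} {u v : Fin N} : u ∈ mm v ↔ u ≠ v ∧ u ∈ blk v := by
  unfold mm; rw [Finset.mem_erase]

lemma mem_mm_symm {N : ℕ} {u v : Fin N} : u ∈ mm v ↔ v ∈ mm u := by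
  rw [mem_mm, mem_mm, mem_blk, mem_blk]
  constructor <;> rintro ⟨h1, h2⟩ <;> exact ⟨h1.symm, h2.symm⟩

lemma mm_inj {k : ℕ} : Function.Injective (mm : Fin (4 * k) → Finset (Fin (4 * k))) := by
  intro u v h
  by_contra hne
  have hcard := card_mm u
  have hnon : (mm u).Nonempty := by
    rw [← Finset.card_pos, hcard]; norm_num
  obtain ⟨w, hw⟩ := hnon
  have hwu := (mem_mm.mp hw).2
  have hwv : w ∈ mm v := h ▸ hw
  have hwv := (mem_mm.mp hwv).2
  have hblk : blk u = blk v := (blk_eq hwu).symm.trans (blk_eq hwv)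
  have huv : u ∈ mm v := by
    rw [mem_mm]
    exact ⟨hne, hblk ▸ self_mem_blk u⟩
  rw [← h, mem_mm] at huv
  exact huv.1 rfl

/-- vertices of the hypergraph on `4k` vertices correspond to hyperedges -/
def phi (k : ℕ) : Fin (4 * k) ≃ EE (4 * k) :=
  Equiv.ofBijective (fun v => ⟨mm v, mm_mem v⟩) (by
    constructor
    · intro u v h
      simp only [Subtype.mk.injEq] at h
      exact mm_inj h
    · rintro ⟨e, he⟩
      unfold EE at he
      rw [Finset.mem_filter, Finset.mem_image] at he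
      obtain ⟨⟨v, _, hv⟩, _⟩ := he
      exact ⟨v, Subtype.ext hv⟩)

lemma phi_val (k : ℕ) (v : Fin (4 * k)) : (phi k v).1 = mm v := rfl

lemma EE_uniform (N : ℕ) : IsThreeUniform (EE N) := by
  intro e he
  unfold EE at he
  rw [Finset.mem_filter] at he
  exact he.2

lemma EE_blk {N : ℕ} {e : Finset (Fin N)} (he : e ∈ EE N) {u v : Fin N} (hu : u ∈ e) (hv : v ∈ e) :
    blk u = blk v := by
  unfold EE at he
  rw [Finset.mem_filter, Finset.mem_image] at he
  obtain ⟨⟨w, _, rfl⟩, _⟩ := he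
  rw [blk_eq (mem_mm.mp hu).2, blk_eq (mem_mm.mp hv).2]

lemma chain_blk {N : ℕ} (w : Fin N) (l : List (Finset (Fin N))) :
    ∀ v, IsChainBetween (EE N) v w l → blk w = blk v := by
  induction l with
  | nil =>
    intro v h
    obtain ⟨_, ⟨h1, _⟩, _⟩ := h
    exact absurd rfl h1
  | cons e l ih =>
    intro v h
    obtain ⟨hE, ⟨h1, h2, h3⟩, h4⟩ := h
    cases l with
    | nil =>
      simp only [List.head_cons, List.getLast_singleton] at h2 h3
      exact EE_blk (hE e (by simp)) h3 h2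
    | cons e' l' =>
      rw [List.isChain_cons_cons] at h4
      obtain ⟨⟨u, hu⟩, h5⟩ := h4
      rw [Finset.mem_inter] at hu
      have h6 : IsChainBetween (EE N) u w (e' :: l') := by
        refine ⟨fun f hf => hE f (List.mem_cons_of_mem _ hf), ⟨by simp, ?_, ?_⟩, h5⟩
        · simpa using hu.2
        · simpa using h3
      rw [ih u h6]
      simp only [List.head_cons] at h2
      exact EE_blk (hE e (by simp)) hu.1 h2

lemma ball_card {N : ℕ} (r : ℕ) (v : Fin N) : (Ball (EE N) r v).ncard ≤ 4 := by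
  have hsub : Ball (EE N) r v ⊆ (blk v : Set (Fin N)) := by
    rintro w (rfl | ⟨l, hl, _⟩)
    · exact self_mem_blk w
    · have := chain_blk w l v hl
      rw [Finset.mem_coe, ← this]
      exact self_mem_blk w
  calc (Ball (EE N) r v).ncard ≤ (blk v : Set (Fin N)).ncard := Set.ncard_le_ncard hsub
    _ = (blk v).card := Set.ncard_coe_finset _
    _ ≤ 4 := card_blk_le v

lemma poly_growth : PolynomialGrowth EE := by
  refine ⟨4, 1, by norm_num, one_pos, fun N v r hr => ?_⟩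
  have h1 : ((Ball (EE N) r v).ncard : ℝ) ≤ 4 := by exact_mod_cast ball_card r v
  have h2 : (1 : ℝ) ≤ r := by exact_mod_cast hr
  rw [Real.rpow_one]
  linarith

lemma exp_growth : ExponentialGrowth EE := by
  refine ⟨4, 2, by norm_num, by norm_num, fun N v r => ?_⟩
  have h1 : ((Ball (EE N) r v).ncard : ℝ) ≤ 4 := by exact_mod_cast ball_card r v
  have h2 : (1 : ℝ) ≤ 2 ^ r := one_le_pow₀ (by norm_num)
  linarith

/-! ### The involution -/

/-- the involution on spins -/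
def TT {k : ℕ} (σ : Fin (4 * k) → ℤˣ) : Fin (4 * k) → ℤˣ := fun j => ∏ v ∈ mm j, σ v

lemma TT_eq {k : ℕ} (σ : Fin (4 * k) → ℤˣ) (j : Fin (4 * k)) :
    TT σ j = (∏ v ∈ blk j, σ v) * σ j := by
  unfold TT mm
  rw [← Finset.mul_prod_erase (blk j) σ (self_mem_blk j)]
  rw [mul_comm (σ j), mul_assoc, Int.units_mul_self, mul_one]

lemma pow_four_unit (x : ℤˣ) : x ^ 4 = 1 := by
  rw [show (4 : ℕ) = 2 * 2 by norm_num, pow_mul, Int.units_sq]

lemma TT_invol {k : ℕ} (σ : Fin (4 * k) → ℤˣ) : TT (TT σ) = σ := by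
  funext i
  rw [TT_eq]
  have h1 : ∏ v ∈ blk i, TT σ v = (∏ v ∈ blk i, σ v) := by
    have h2 : ∏ v ∈ blk i, TT σ v = ∏ v ∈ blk i, ((∏ w ∈ blk i, σ w) * σ v) := by
      refine Finset.prod_congr rfl (fun v hv => ?_)
      rw [TT_eq, blk_eq hv]
    rw [h2, Finset.prod_mul_distrib, Finset.prod_const, card_blk]
    rw [pow_four_unit, one_mul]
  rw [h1, TT_eq, ← mul_assoc, Int.units_mul_self, one_mul]

/-- as an equivalence -/
def TE (k : ℕ) : (Fin (4 * k) → ℤˣ) ≃ (Fin (4 * k) → ℤˣ) where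
  toFun := TT
  invFun := TT
  left_inv := TT_invol
  right_inv := TT_invol

lemma spE_mm {k : ℕ} (σ : Fin (4 * k) → ℤˣ) (j : Fin (4 * k)) : spE σ (mm j) = sp (TT σ) j := by
  unfold spE sp TT
  push_cast
  rfl

lemma ham_eq {k : ℕ} (ρ : ℝ → ℝ) (J : EE (4 * k) → ℝ) (σ : Fin (4 * k) → ℤˣ) :
    ham (EE (4 * k)) ρ J σ = ∑ j, ρ (J (phi k j)) * sp (TT σ) j := by
  unfold ham
  rw [← (phi k).sum_comp]
  refine Finset.sum_congr rfl (fun j _ => ?_)
  rw [phi_val, spE_mm]

/-! ### Gibbs averages of single spins -/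

lemma sum_units (f : ℤˣ → ℝ) : ∑ s, f s = f 1 + f (-1) := by
  rw [show (Finset.univ : Finset ℤˣ) = {1, -1} from rfl]
  rw [Finset.sum_insert (by decide), Finset.sum_singleton]

lemma prod_sum {n : ℕ} (g : Fin n → ℤˣ → ℝ) :
    ∑ s : Fin n → ℤˣ, ∏ j, g j (s j) = ∏ j, (g j 1 + g j (-1)) := by
  rw [← Fintype.piFinset_univ, ← Finset.prod_univ_sum]
  exact Finset.prod_congr rfl (fun j _ => sum_units (g j))

lemma mag_eq {k : ℕ} (ρ : ℝ → ℝ) (β : ℝ) (J : EE (4 * k) → ℝ) (i : Fin (4 * k)) :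
    ∑ σ, gibbs (EE (4 * k)) ρ β J σ * sp σ i =
      ∏ e : EE (4 * k), (if i ∈ e.1 then Real.tanh (β * ρ (J e)) else 1) := by
  classical
  have hw : ∀ σ, Real.exp (β * ham (EE (4 * k)) ρ J σ) =
      ∏ j, Real.exp (β * ρ (J (phi k j)) * sp (TT σ) j) := by
    intro σ
    rw [ham_eq, Finset.mul_sum, Real.exp_sum]
    refine Finset.prod_congr rfl (fun j _ => ?_)
    congr 1; ring
  have hZ : ∑ τ, Real.exp (β * ham (EE (4 * k)) ρ J τ) =
      ∏ j, (Real.exp (β * ρ (J (phi k j))) + Real.exp (-(β * ρ (J (phi k j))))) := by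
    rw [← (TE k).sum_comp]
    have h1 : ∀ τ, Real.exp (β * ham (EE (4 * k)) ρ J (TE k τ)) =
        ∏ j, Real.exp (β * ρ (J (phi k j)) * ((τ j : ℤ) : ℝ)) := by
      intro τ
      rw [hw]
      have : TT (TE k τ) = τ := TT_invol τ
      rw [this]; rfl
    rw [Finset.sum_congr rfl (fun τ _ => h1 τ),
      prod_sum (fun j (s : ℤˣ) => Real.exp (β * ρ (J (phi k j)) * ((s : ℤ) : ℝ)))]
    refine Finset.prod_congr rfl (fun j _ => ?_)
    simp
  have hN : ∑ σ, Real.exp (β * ham (EE (4 * k)) ρ J σ) * sp σ i =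
      ∏ j, (if i ∈ mm j then Real.exp (β * ρ (J (phi k j))) - Real.exp (-(β * ρ (J (phi k j))))
        else Real.exp (β * ρ (J (phi k j))) + Real.exp (-(β * ρ (J (phi k j))))) := by
    rw [← (TE k).sum_comp]
    have h1 : ∀ τ, Real.exp (β * ham (EE (4 * k)) ρ J (TE k τ)) * sp (TE k τ) i =
        ∏ j, (Real.exp (β * ρ (J (phi k j)) * ((τ j : ℤ) : ℝ)) * (if i ∈ mm j then ((τ j : ℤ) : ℝ) else 1)) := by
      intro τ
      rw [hw, Finset.prod_mul_distrib]
      have : TT (TE k τ) = τ := TT_invol τ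
      rw [this]
      congr 1
      change sp (TT τ) i = _
      rw [← spE_mm]
      unfold spE
      rw [Finset.prod_ite, Finset.prod_const_one, mul_one]
      refine Finset.prod_congr ?_ (fun _ _ => rfl)
      ext j
      rw [Finset.mem_filter]
      simp only [Finset.mem_univ, true_and]
      exact mem_mm_symm
    rw [Finset.sum_congr rfl (fun τ _ => h1 τ),
      prod_sum (fun j (s : ℤˣ) => Real.exp (β * ρ (J (phi k j)) * ((s : ℤ) : ℝ)) * (if i ∈ mm j then ((s : ℤ) : ℝ) else 1))]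
    refine Finset.prod_congr rfl (fun j _ => ?_)
    split_ifs
    · simp
      ring
    · simp
  have hsum : ∑ σ, gibbs (EE (4 * k)) ρ β J σ * sp σ i =
      (∑ σ, Real.exp (β * ham (EE (4 * k)) ρ J σ) * sp σ i) / ∑ τ, Real.exp (β * ham (EE (4 * k)) ρ J τ) := by
    unfold gibbs
    rw [Finset.sum_div]
    refine Finset.sum_congr rfl (fun σ _ => ?_)
    ring
  rw [hsum, hN, hZ, ← Finset.prod_div_distrib, ← (phi k).prod_comp]
  refine Finset.prod_congr rfl (fun j _ => ?_)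
  rw [phi_val]
  have hpos : 0 < Real.exp (β * ρ (J (phi k j))) + Real.exp (-(β * ρ (J (phi k j)))) := by positivity
  split_ifs
  · rw [Real.tanh_eq_sinh_div_cosh, Real.sinh_eq, Real.cosh_eq]
    field_simp
  · exact div_self hpos.ne'

lemma gibbs_nonneg {N : ℕ} (E : Finset (Finset (Fin N))) (ρ : ℝ → ℝ) (β : ℝ) (J : E → ℝ)
    (σ : Fin N → ℤˣ) : 0 ≤ gibbs E ρ β J σ := by
  unfold gibbs; positivity

lemma gibbs_sum {N : ℕ} (E : Finset (Finset (Fin N))) (ρ : ℝ → ℝ) (β : ℝ) (J : E → ℝ) :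
    ∑ σ, gibbs E ρ β J σ = 1 := by
  unfold gibbs
  rw [← Finset.sum_div]
  apply div_self
  have : 0 < ∑ τ : Fin N → ℤˣ, Real.exp (β * ham E ρ J τ) :=
    Finset.sum_pos (fun _ _ => Real.exp_pos _) Finset.univ_nonempty
  exact this.ne'

lemma gibbs_le_one {N : ℕ} (E : Finset (Finset (Fin N))) (ρ : ℝ → ℝ) (β : ℝ) (J : E → ℝ)
    (σ : Fin N → ℤˣ) : gibbs E ρ β J σ ≤ 1 := by
  rw [← gibbs_sum E ρ β J]
  exact Finset.single_le_sum (f := fun σ => gibbs E ρ β J σ) (fun σ _ => gibbs_nonneg E ρ β J σ) (Finset.mem_univ σ)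

/-- `⟨R⟩` in terms of single spin averages -/
lemma avg_overlap {N : ℕ} (E : Finset (Finset (Fin N))) (ρ : ℝ → ℝ) (β : ℝ) (J J' : E → ℝ) :
    ∑ σ, ∑ τ, gibbs E ρ β J σ * gibbs E ρ β J' τ * overlap σ τ =
      (∑ i, (∑ σ, gibbs E ρ β J σ * sp σ i) * (∑ τ, gibbs E ρ β J' τ * sp τ i)) / N := by
  unfold overlap
  have h1 : ∀ σ τ : Fin N → ℤˣ, gibbs E ρ β J σ * gibbs E ρ β J' τ * ((∑ i, sp σ i * sp τ i) / N) =
      (∑ i, (gibbs E ρ β J σ * sp σ i) * (gibbs E ρ β J' τ * sp τ i)) / N := by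
    intro σ τ
    rw [mul_div_assoc', Finset.mul_sum]
    congr 1
    refine Finset.sum_congr rfl (fun i _ => ?_)
    ring
  simp only [h1, ← Finset.sum_div]
  congr 1
  calc ∑ σ, ∑ τ, ∑ i, (gibbs E ρ β J σ * sp σ i) * (gibbs E ρ β J' τ * sp τ i)
      = ∑ σ, ∑ i, ∑ τ, (gibbs E ρ β J σ * sp σ i) * (gibbs E ρ β J' τ * sp τ i) :=
        Finset.sum_congr rfl (fun σ _ => Finset.sum_comm)
    _ = ∑ i, ∑ σ, ∑ τ, (gibbs E ρ β J σ * sp σ i) * (gibbs E ρ β J' τ * sp τ i) := Finset.sum_comm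
    _ = _ := by
        refine Finset.sum_congr rfl (fun i _ => ?_)
        rw [Finset.sum_mul_sum]

lemma avg_sq_ge {N : ℕ} (E : Finset (Finset (Fin N))) (ρ : ℝ → ℝ) (β : ℝ) (J J' : E → ℝ) (a : ℝ) :
    2 * a * (∑ σ, ∑ τ, gibbs E ρ β J σ * gibbs E ρ β J' τ * overlap σ τ) - a ^ 2 ≤
      ∑ σ, ∑ τ, gibbs E ρ β J σ * gibbs E ρ β J' τ * overlap σ τ ^ 2 := by
  have h1 : (∑ σ, ∑ τ, gibbs E ρ β J σ * gibbs E ρ β J' τ) = 1 := by
    rw [← Finset.sum_mul_sum, gibbs_sum, gibbs_sum, one_mul]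
  have h2 : a ^ 2 = ∑ σ, ∑ τ, gibbs E ρ β J σ * gibbs E ρ β J' τ * a ^ 2 := by
    simp only [← Finset.sum_mul]
    rw [h1, one_mul]
  rw [h2, Finset.mul_sum, ← Finset.sum_sub_distrib]
  refine Finset.sum_le_sum (fun σ _ => ?_)
  rw [Finset.mul_sum, ← Finset.sum_sub_distrib]
  refine Finset.sum_le_sum (fun τ _ => ?_)
  have h3 : 0 ≤ gibbs E ρ β J σ * gibbs E ρ β J' τ :=
    mul_nonneg (gibbs_nonneg _ _ _ _ _) (gibbs_nonneg _ _ _ _ _)
  nlinarith [mul_nonneg h3 (sq_nonneg (overlap σ τ - a))]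

lemma overlap_abs {N : ℕ} (σ τ : Fin N → ℤˣ) : |overlap σ τ| ≤ 1 := by
  unfold overlap
  rw [abs_div, Nat.abs_cast]
  have h1 : |∑ i, sp σ i * sp τ i| ≤ N := by
    calc |∑ i, sp σ i * sp τ i| ≤ ∑ i, |sp σ i * sp τ i| := Finset.abs_sum_le_sum_abs _ _
      _ ≤ ∑ _i : Fin N, (1 : ℝ) := by
          refine Finset.sum_le_sum (fun i _ => ?_)
          unfold sp
          rcases Int.units_eq_one_or (σ i) with h | h <;> rcases Int.units_eq_one_or (τ i) with h' | h' <;>
            simp [h, h']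
      _ = N := by simp
  rcases Nat.eq_zero_or_pos N with h | h
  · subst h; simp
  · have : (0 : ℝ) < N := by exact_mod_cast h
    rw [div_le_one this]
    exact h1

/-! ### Integration over the disorder -/

lemma bern_prob {t : ℝ} (ht : 0 ≤ t) : IsProbabilityMeasure (bern t) := by
  constructor
  have h1 : Real.exp (-t) ≤ 1 := Real.exp_le_one_iff.mpr (by linarith)
  unfold bern
  rw [Measure.add_apply, Measure.smul_apply, Measure.smul_apply, measure_univ, measure_univ,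
    smul_eq_mul, smul_eq_mul, mul_one, mul_one, ← ENNReal.ofReal_add (Real.exp_pos _).le (by linarith)]
  simp

lemma bern_integral {t : ℝ} (ht : 0 ≤ t) (f : Bool → ℝ) :
    ∫ b, f b ∂(bern t) = Real.exp (-t) * f true + (1 - Real.exp (-t)) * f false := by
  have h1 : Real.exp (-t) ≤ 1 := Real.exp_le_one_iff.mpr (by linarith)
  unfold bern
  rw [integral_add_measure, integral_smul_measure, integral_smul_measure, integral_dirac,
    integral_dirac, ENNReal.toReal_ofReal (Real.exp_pos _).le, ENNReal.toReal_ofReal (by linarith)]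
  · simp
  · exact Integrable.smul_measure (integrable_dirac (by simp)) ENNReal.ofReal_ne_top
  · exact Integrable.smul_measure (integrable_dirac (by simp)) ENNReal.ofReal_ne_top

lemma triple_prob {t : ℝ} (ht : 0 ≤ t) : IsProbabilityMeasure (triple t) := by
  have := bern_prob ht
  unfold triple
  infer_instance

lemma law_prob {N : ℕ} (E : Finset (Finset (Fin N))) {t : ℝ} (ht : 0 ≤ t) :
    IsProbabilityMeasure (law E t) := by
  have := triple_prob ht
  unfold law
  infer_instance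

/-- single edge function -/
def hh (ρ : ℝ → ℝ) (β x : ℝ) : ℝ := Real.tanh (β * ρ x)

lemma tanh_abs_le (x : ℝ) : |Real.tanh x| ≤ 1 := (Real.abs_tanh_lt_one x).le

/-- product over the edge -/
def Tf (ρ : ℝ → ℝ) (β : ℝ) (y : ℝ × ℝ × Bool) : ℝ :=
  hh ρ β y.1 * hh ρ β (if y.2.2 then y.1 else y.2.1)

lemma hh_meas {ρ : ℝ → ℝ} (hρ : Measurable ρ) (β : ℝ) : Measurable (hh ρ β) := by
  unfold hh
  simp only [Real.tanh_eq_sinh_div_cosh]
  exact (Real.measurable_sinh.comp (hρ.const_mul β)).div (Real.measurable_cosh.comp (hρ.const_mul β))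

lemma ite_meas : Measurable (fun y : ℝ × ℝ × Bool => if y.2.2 then y.1 else y.2.1) := by
  apply Measurable.ite
  · exact (measurable_snd.comp measurable_snd) (MeasurableSet.of_discrete : MeasurableSet {b : Bool | b = true})
  · fun_prop
  · fun_prop

lemma Tf_meas {ρ : ℝ → ℝ} (hρ : Measurable ρ) (β : ℝ) : Measurable (Tf ρ β) := by
  unfold Tf
  exact ((hh_meas hρ β).comp measurable_fst).mul ((hh_meas hρ β).comp ite_meas)

lemma hh_abs (ρ : ℝ → ℝ) (β x : ℝ) : |hh ρ β x| ≤ 1 := tanh_abs_le _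

lemma Tf_abs (ρ : ℝ → ℝ) (β : ℝ) (y : ℝ × ℝ × Bool) : |Tf ρ β y| ≤ 1 := by
  unfold Tf
  rw [abs_mul]
  exact mul_le_one₀ (hh_abs _ _ _) (abs_nonneg _) (hh_abs _ _ _)

lemma c_eq {ρ : ℝ → ℝ} (hρ : Measurable ρ) (β : ℝ) {t : ℝ} (ht : 0 ≤ t) :
    ∫ y, Tf ρ β y ∂(triple t) = Real.exp (-t) * ∫ x, hh ρ β x ^ 2 ∂(gaussianReal 0 1) +
      (1 - Real.exp (-t)) * (∫ x, hh ρ β x ∂(gaussianReal 0 1)) ^ 2 := by
  have hb := bern_prob ht
  have hint : Integrable (Tf ρ β) (triple t) := by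
    have := triple_prob ht
    exact Integrable.of_bound (Tf_meas hρ β).aestronglyMeasurable 1 (Eventually.of_forall (Tf_abs ρ β))
  have hhint : Integrable (hh ρ β) (gaussianReal 0 1) :=
    Integrable.of_bound (hh_meas hρ β).aestronglyMeasurable 1 (Eventually.of_forall (hh_abs ρ β))
  have hh2int : Integrable (fun x => hh ρ β x ^ 2) (gaussianReal 0 1) :=
    Integrable.of_bound ((hh_meas hρ β).pow_const 2).aestronglyMeasurable 1 (Eventually.of_forall (fun x => by
      rw [norm_pow, Real.norm_eq_abs]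
      exact pow_le_one₀ (abs_nonneg _) (hh_abs ρ β x)))
  unfold triple at *
  rw [integral_prod _ hint]
  have h1 : ∀ x, ∫ y, Tf ρ β (x, y) ∂((gaussianReal 0 1).prod (bern t)) =
      Real.exp (-t) * hh ρ β x ^ 2 + (1 - Real.exp (-t)) * (hh ρ β x * ∫ x, hh ρ β x ∂(gaussianReal 0 1)) := by
    intro x
    have hi : Integrable (fun y => Tf ρ β (x, y)) ((gaussianReal 0 1).prod (bern t)) :=
      Integrable.of_bound ((Tf_meas hρ β).comp measurable_prodMk_left).aestronglyMeasurable 1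
        (Eventually.of_forall (fun y => Tf_abs ρ β _))
    rw [integral_prod _ hi]
    have h2 : ∀ x', ∫ b, Tf ρ β (x, (x', b)) ∂(bern t) =
        Real.exp (-t) * hh ρ β x ^ 2 + (1 - Real.exp (-t)) * hh ρ β x * hh ρ β x' := by
      intro x'
      rw [bern_integral ht]
      simp [Tf]
      ring
    simp only [h2]
    have e2 : ∫ x', (1 - Real.exp (-t)) * hh ρ β x * hh ρ β x' ∂(gaussianReal 0 1) =
        (1 - Real.exp (-t)) * hh ρ β x * ∫ x', hh ρ β x' ∂(gaussianReal 0 1) := integral_const_mul _ _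
    rw [integral_add (integrable_const _) (hhint.const_mul _), e2, integral_const, probReal_univ, one_smul]
    ring
  simp only [h1]
  rw [integral_add (hh2int.const_mul _) ((hhint.mul_const _).const_mul _), integral_const_mul,
    integral_const_mul, integral_mul_const]
  ring

lemma c_pos {ρ : ℝ → ℝ} (hρ : Measurable ρ) (hne : ¬ (ρ =ᵐ[volume] 0)) {β : ℝ} (hβ : 0 < β) {t : ℝ}
    (ht : 0 ≤ t) : 0 < ∫ y, Tf ρ β y ∂(triple t) := by
  rw [c_eq hρ β ht]
  have h1 : Real.exp (-t) ≤ 1 := Real.exp_le_one_iff.mpr (by linarith)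
  have h2 : 0 < ∫ x, hh ρ β x ^ 2 ∂(gaussianReal 0 1) := by
    have hh2int : Integrable (fun x => hh ρ β x ^ 2) (gaussianReal 0 1) :=
      Integrable.of_bound ((hh_meas hρ β).pow_const 2).aestronglyMeasurable 1 (Eventually.of_forall (fun x => by
        rw [norm_pow, Real.norm_eq_abs]
        exact pow_le_one₀ (abs_nonneg _) (hh_abs ρ β x)))
    have hnn : 0 ≤ ∫ x, hh ρ β x ^ 2 ∂(gaussianReal 0 1) := integral_nonneg (fun _ => sq_nonneg _)
    rcases eq_or_lt_of_le hnn with h | h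
    · exfalso
      have h3 := (integral_eq_zero_iff_of_nonneg (fun x => sq_nonneg (hh ρ β x)) hh2int).mp h.symm
      apply hne
      have h4 : ρ =ᵐ[gaussianReal 0 1] 0 := by
        filter_upwards [h3] with x hx
        have h5 : hh ρ β x = 0 := by
          have : hh ρ β x ^ 2 = 0 := hx
          exact pow_eq_zero_iff (two_ne_zero) |>.mp this
        unfold hh at h5
        have h6 : β * ρ x = 0 := by
          rw [← Real.tanh_zero] at h5
          exact Real.tanh_injective h5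
        have : ρ x = 0 := by
          rcases mul_eq_zero.mp h6 with h | h
          · exact absurd h hβ.ne'
          · exact h
        exact this
      exact (gaussianReal_absolutelyContinuous' 0 one_ne_zero).ae_eq h4
    · exact h
  have h3 : 0 ≤ (1 - Real.exp (-t)) * (∫ x, hh ρ β x ∂(gaussianReal 0 1)) ^ 2 :=
    mul_nonneg (by linarith) (sq_nonneg _)
  have h4 : 0 < Real.exp (-t) * ∫ x, hh ρ β x ^ 2 ∂(gaussianReal 0 1) := mul_pos (Real.exp_pos _) h2
  linarith

lemma JJ_meas {N : ℕ} {E : Finset (Finset (Fin N))} (e : E) :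
    Measurable (fun x : E → ℝ × ℝ × Bool => JJ x e) :=
  measurable_fst.comp (measurable_pi_apply e)

lemma Jt_meas {N : ℕ} {E : Finset (Finset (Fin N))} (e : E) :
    Measurable (fun x : E → ℝ × ℝ × Bool => Jt x e) :=
  ite_meas.comp (measurable_pi_apply e)

lemma gibbs_meas {N : ℕ} (E : Finset (Finset (Fin N))) {ρ : ℝ → ℝ} (hρ : Measurable ρ) (β : ℝ)
    {X : Type*} [MeasurableSpace X] (J : X → E → ℝ) (hJ : ∀ e, Measurable (fun x => J x e))
    (σ : Fin N → ℤˣ) : Measurable (fun x => gibbs E ρ β (J x) σ) := by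
  have h : ∀ τ : Fin N → ℤˣ, Measurable (fun x => Real.exp (β * ham E ρ (J x) τ)) := by
    intro τ
    unfold ham
    have h1 : Measurable (fun x => ∑ e : E, ρ (J x e) * spE τ e.1) :=
      Finset.measurable_fun_sum _ (fun e _ => (hρ.comp (hJ e)).mul_const _)
    exact Real.measurable_exp.comp (h1.const_mul β)
  unfold gibbs
  exact (h σ).div (Finset.measurable_fun_sum _ (fun τ _ => h τ))

lemma integrable_pow {N : ℕ} (E : Finset (Finset (Fin N))) {ρ : ℝ → ℝ} (hρ : Measurable ρ) (β : ℝ)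
    {t : ℝ} (ht : 0 ≤ t) (m : ℕ) :
    Integrable (fun x => ∑ σ, ∑ τ, gibbs E ρ β (JJ x) σ * gibbs E ρ β (Jt x) τ * overlap σ τ ^ m) (law E t) := by
  have := law_prob E ht
  refine integrable_finsetSum _ (fun σ _ => integrable_finsetSum _ (fun τ _ => ?_))
  refine Integrable.of_bound (((gibbs_meas E hρ β _ JJ_meas σ).mul (gibbs_meas E hρ β _ Jt_meas τ)).mul_const _).aestronglyMeasurable 1
    (Eventually.of_forall (fun x => ?_))
  rw [norm_mul, norm_mul, Real.norm_of_nonneg (gibbs_nonneg _ _ _ _ _), Real.norm_of_nonneg (gibbs_nonneg _ _ _ _ _),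
    norm_pow, Real.norm_eq_abs]
  have h1 := gibbs_le_one E ρ β (JJ x) σ
  have h2 := gibbs_le_one E ρ β (Jt x) τ
  have h3 := gibbs_nonneg E ρ β (JJ x) σ
  have h4 := gibbs_nonneg E ρ β (Jt x) τ
  have h5 : |overlap σ τ| ^ m ≤ 1 := pow_le_one₀ (abs_nonneg _) (overlap_abs σ τ)
  exact mul_le_one₀ (mul_le_one₀ h1 h4 h2) (by positivity) h5

lemma mean_overlap {k : ℕ} (hk : 0 < k) {ρ : ℝ → ℝ} (hρ : Measurable ρ) (β : ℝ) {t : ℝ} (ht : 0 ≤ t) :
    ∫ x, ∑ σ, ∑ τ, gibbs (EE (4 * k)) ρ β (JJ x) σ * gibbs (EE (4 * k)) ρ β (Jt x) τ * overlap σ τ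
      ∂(law (EE (4 * k)) t) = (∫ y, Tf ρ β y ∂(triple t)) ^ 3 := by
  classical
  have hprob := triple_prob ht
  set c := ∫ y, Tf ρ β y ∂(triple t) with hc
  have h1 : ∀ x : EE (4 * k) → ℝ × ℝ × Bool,
      ∑ σ, ∑ τ, gibbs (EE (4 * k)) ρ β (JJ x) σ * gibbs (EE (4 * k)) ρ β (Jt x) τ * overlap σ τ =
      (∑ i : Fin (4 * k), ∏ e : EE (4 * k), (if i ∈ e.1 then Tf ρ β (x e) else 1)) / ((4 * k : ℕ) : ℝ) := by
    intro x
    rw [avg_overlap]
    congr 1
    refine Finset.sum_congr rfl (fun i _ => ?_)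
    rw [mag_eq, mag_eq, ← Finset.prod_mul_distrib]
    refine Finset.prod_congr rfl (fun e _ => ?_)
    split_ifs
    · rfl
    · simp
  simp only [h1]
  rw [integral_div, integral_finsetSum]
  · have h2 : ∀ i : Fin (4 * k), ∫ x, ∏ e : EE (4 * k), (if i ∈ e.1 then Tf ρ β (x e) else 1) ∂(law (EE (4 * k)) t) = c ^ 3 := by
      intro i
      unfold law
      rw [integral_fintype_prod_eq_prod (fun (e : EE (4 * k)) (y : ℝ × ℝ × Bool) => (if i ∈ e.1 then Tf ρ β y else 1))]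
      have h3 : ∀ e : EE (4 * k), ∫ y, (if i ∈ e.1 then Tf ρ β y else 1) ∂(triple t) = if i ∈ e.1 then c else 1 := by
        intro e
        split_ifs
        · rfl
        · simp
      rw [Finset.prod_congr rfl (fun e _ => h3 e), ← (phi k).prod_comp]
      have h4 : ∏ j : Fin (4 * k), (if i ∈ (phi k j).1 then c else 1) = ∏ j ∈ mm i, c := by
        rw [Finset.prod_ite, Finset.prod_const_one, mul_one]
        refine Finset.prod_congr ?_ (fun _ _ => rfl)
        ext j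
        rw [Finset.mem_filter, phi_val]
        simp only [Finset.mem_univ, true_and]
        exact mem_mm_symm
      rw [h4, Finset.prod_const, card_mm]
    rw [Finset.sum_congr rfl (fun i _ => h2 i)]
    have hk' : ((4 * k : ℕ) : ℝ) ≠ 0 := by
      have : 4 * k ≠ 0 := by omega
      exact_mod_cast this
    simp only [Finset.sum_const, Finset.card_univ, Fintype.card_fin, nsmul_eq_mul]
    field_simp
  · intro i _
    have := law_prob (EE (4 * k)) ht
    refine Integrable.of_bound ?_ 1 (Eventually.of_forall (fun x => ?_))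
    · refine (Finset.measurable_fun_prod _ (fun e _ => ?_)).aestronglyMeasurable
      split_ifs
      · exact (Tf_meas hρ β).comp (measurable_pi_apply e)
      · exact measurable_const
    · rw [Real.norm_eq_abs, Finset.abs_prod]
      refine Finset.prod_le_one (fun _ _ => abs_nonneg _) (fun e _ => ?_)
      split_ifs
      · exact Tf_abs ρ β _
      · simp

lemma main_bound {k : ℕ} (hk : 0 < k) {ρ : ℝ → ℝ} (hρ : Measurable ρ) (β : ℝ) {t : ℝ} (ht : 0 ≤ t) :
    (∫ y, Tf ρ β y ∂(triple t)) ^ 6 ≤ overlapSq (EE (4 * k)) ρ β t := by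
  have hprob := law_prob (EE (4 * k)) ht
  set c := ∫ y, Tf ρ β y ∂(triple t) with hc
  have hm := mean_overlap hk hρ β ht
  rw [← hc] at hm
  have hi1 : Integrable (fun x => ∑ σ, ∑ τ, gibbs (EE (4 * k)) ρ β (JJ x) σ * gibbs (EE (4 * k)) ρ β (Jt x) τ * overlap σ τ) (law (EE (4 * k)) t) := by
    have := integrable_pow (EE (4 * k)) hρ β ht 1
    simpa using this
  unfold overlapSq
  calc c ^ 6 = ∫ x, (2 * c ^ 3 * (∑ σ, ∑ τ, gibbs (EE (4 * k)) ρ β (JJ x) σ * gibbs (EE (4 * k)) ρ β (Jt x) τ * overlap σ τ) - (c ^ 3) ^ 2) ∂(law (EE (4 * k)) t) := by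
        rw [integral_sub (hi1.const_mul _) (integrable_const _), integral_const_mul, hm]
        simp
        ring
    _ ≤ _ := by
        refine integral_mono ((hi1.const_mul _).sub (integrable_const _)) (integrable_pow (EE (4 * k)) hρ β ht 2) (fun x => ?_)
        exact avg_sq_ge (EE (4 * k)) ρ β (JJ x) (Jt x) (c ^ 3)

/-- There is a sequence of 3-uniform hypergraphs on `[N]`, of polynomial and of exponential growth,
such that for every odd measurable `ρ` that is not almost everywhere zero, every `β ∈ (0,∞)` and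
every `t ≥ 0`, the quantity `E ⟨R(σ,τ)^2⟩_t` (discrete perturbation) stays above a positive constant
for infinitely many `N`. -/
theorem result : ∃ E : ∀ N : ℕ, Finset (Finset (Fin N)),
    (∀ N, IsThreeUniform (E N)) ∧ PolynomialGrowth E ∧ ExponentialGrowth E ∧
      ∀ ρ : ℝ → ℝ, Measurable ρ → (∀ x, ρ (-x) = -ρ x) → ¬ (ρ =ᵐ[volume] 0) →
        ∀ β t : ℝ, 0 < β → 0 ≤ t →
          ∃ δ : ℝ, 0 < δ ∧ ∃ᶠ N in atTop, δ ≤ overlapSq (E N) ρ β t := by
  refine ⟨EE, EE_uniform, poly_growth, exp_growth, fun ρ hρ _ hne β t hβ ht => ?_⟩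
  have hc := c_pos hρ hne hβ ht
  refine ⟨(∫ y, Tf ρ β y ∂(triple t)) ^ 6, by positivity, ?_⟩
  rw [Filter.frequently_atTop]
  intro a
  exact ⟨4 * (a + 1), by omega, main_bound (Nat.succ_pos a) hρ β ht⟩

end

end Pool.Agent.Results.MP_f93cde_pr.OddEdgesNoChaos
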